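import Pool.Agent.Helper93.GS.Stmts

/-!
Module FORCE: every task is either met or blocked at a finite level.
-/

set_option autoImplicit false

namespace Pool.Agent.Helper93.GS

/-- the relations given by a choice -/
def force_rel (c : ℕ → Option (PowerSeries R)) (n : ℕ) : Set R :=
  {g | ∃ (i : ℕ) (f : PowerSeries R), 13 + i ≤ n ∧ c i = some f ∧ g = PowerSeries.coeff n f}

open scoped Classical in
/-- the choice at stage `j` -/
noncomputable def force_ch (T : ℕ → Set (PowerSeries R)) (j : ℕ)
    (c : ℕ → Option (PowerSeries R)) : Option (PowerSeries R) :=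
  if h : ∃ f ∈ T j, ∀ n < 13 + j, PowerSeries.coeff n f ∈ idl (force_rel c) n then
    some h.choose else none

/-- the first `j` choices -/
noncomputable def force_pre (T : ℕ → Set (PowerSeries R)) : ℕ → ℕ → Option (PowerSeries R)
  | 0 => fun _ => none
  | j + 1 => Function.update (force_pre T j) j (force_ch T j (force_pre T j))

/-- all choices -/
noncomputable def force_c (T : ℕ → Set (PowerSeries R)) (j : ℕ) : Option (PowerSeries R) :=
  force_ch T j (force_pre T j)

theorem force_pre_lt (T : ℕ → Set (PowerSeries R)) (j i : ℕ) (h : i < j) :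
    force_pre T j i = force_c T i := by
  induction j with
  | zero => omega
  | succ j ih =>
    change Function.update (force_pre T j) j (force_ch T j (force_pre T j)) i = _
    rcases Nat.lt_succ_iff_lt_or_eq.1 h with h1 | h1
    · rw [Function.update_of_ne (by omega)]
      exact ih h1
    · subst h1
      rw [Function.update_self]
      rfl

theorem force_rel_eq (T : ℕ → Set (PowerSeries R)) (j k : ℕ) (h : k < 13 + j) :
    force_rel (force_c T) k = force_rel (force_pre T j) k := by
  ext g
  constructor
  · rintro ⟨i, f, h1, h2, h3⟩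
    refine ⟨i, f, h1, ?_, h3⟩
    rw [force_pre_lt T j i (by omega)]
    exact h2
  · rintro ⟨i, f, h1, h2, h3⟩
    refine ⟨i, f, h1, ?_, h3⟩
    rw [force_pre_lt T j i (by omega)] at h2
    exact h2

theorem force_ch_some (T : ℕ → Set (PowerSeries R)) (j : ℕ) (c : ℕ → Option (PowerSeries R))
    (f : PowerSeries R) (h : force_ch T j c = some f) :
    f ∈ T j ∧ ∀ n < 13 + j, PowerSeries.coeff n f ∈ idl (force_rel c) n := by
  unfold force_ch at h
  split_ifs at h with h1
  have h2 := Option.some.inj h
  rw [← h2]
  exact h1.choose_spec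

theorem force_ch_none (T : ℕ → Set (PowerSeries R)) (j : ℕ) (c : ℕ → Option (PowerSeries R))
    (h : force_ch T j c = none) :
    ¬ ∃ f ∈ T j, ∀ n < 13 + j, PowerSeries.coeff n f ∈ idl (force_rel c) n := by
  unfold force_ch at h
  split_ifs at h with h1
  exact h1

theorem st_FORCE (h1 : ST_IDL) (h2 : ST_IDM) : ST_FORCE := by
  classical
  intro T hT
  have hV : ∀ k, force_rel (force_c T) k ⊆ (V k : Set R) := by
    rintro k g ⟨i, f, -, hf, rfl⟩
    exact hT i f (force_ch_some T i _ f hf).1 k
  have hidl : ∀ j n, n < 13 + j → idl (force_rel (force_c T)) n =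
      idl (force_rel (force_pre T j)) n := by
    intro j n hn
    apply le_antisymm
    · exact h2 _ _ n fun k hk => (force_rel_eq T j k (by omega)).le
    · exact h2 _ _ n fun k hk => (force_rel_eq T j k (by omega)).ge
  have hsub : ∀ k, force_rel (force_c T) k ⊆
      (((Finset.range (k - 12)).image fun i => (((force_c T i).map
        fun f => PowerSeries.coeff k f).getD 0 : R)) : Set R) := by
    rintro k g ⟨i, f, hi, hf, rfl⟩
    rw [Finset.coe_image]
    refine ⟨i, ?_, ?_⟩
    · rw [Finset.mem_coe, Finset.mem_range]
      omega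
    · simp only [hf, Option.map_some, Option.getD_some]
  refine ⟨force_rel (force_c T), hV, fun k => (Finset.finite_toSet _).subset (hsub k), ?_, ?_⟩
  · intro k
    refine (Set.ncard_le_ncard (hsub k) (Finset.finite_toSet _)).trans ?_
    rw [Set.ncard_coe_finset]
    exact Finset.card_image_le.trans (Finset.card_range _).le
  · intro j
    rcases hc : force_c T j with _ | f
    · right
      have h3 := force_ch_none T j _ hc
      intro f hf
      by_contra hcon
      push Not at hcon
      apply h3
      refine ⟨f, hf, fun n hn => ?_⟩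
      rw [← hidl j n hn]
      exact hcon n hn
    · left
      obtain ⟨h3, h4⟩ := force_ch_some T j _ f hc
      refine ⟨f, h3, fun n => ?_⟩
      by_cases hn : n < 13 + j
      · rw [hidl j n hn]
        exact h4 n hn
      · exact (h1 _ hV).2.2.2 n ⟨j, f, by omega, hc, rfl⟩

end Pool.Agent.Helper93.GS
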